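import Mathlib
import Pool.Agent.D0H15.TI.Stm

/-!
# TI, module 1: Burnside's lemma
-/

set_option autoImplicit false
set_option linter.all false

open NumberField Pool.Agent.D0H15.TI

namespace Pool.Agent.D0H21.TI

theorem t_BURN : Pool.Agent.D0H15.TI.S_BURN := by
  classical
  intro G _ _ I H
  have h1 : ∀ g : G, Nat.card {i : G // i ∈ I ∧ g * i * g⁻¹ ∈ H} =
      ∑ i : I, if g * (i : G) * g⁻¹ ∈ H then 1 else 0 := by
    intro g
    have e : {i : G // i ∈ I ∧ g * i * g⁻¹ ∈ H} ≃ {i : I // g * (i : G) * g⁻¹ ∈ H} :=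
      { toFun := fun x => ⟨⟨x.1, x.2.1⟩, x.2.2⟩
        invFun := fun x => ⟨x.1.1, x.1.2, x.2⟩
        left_inv := fun x => rfl
        right_inv := fun x => rfl }
    rw [Nat.card_congr e, Nat.card_eq_fintype_card, Fintype.card_subtype, Finset.card_filter]
  have h2 : ∀ i : I, (∑ g : G, if g * (i : G) * g⁻¹ ∈ H then 1 else 0) =
      Nat.card H * Fintype.card (MulAction.fixedBy (G ⧸ H) i) := by
    intro i
    rw [← Finset.card_filter, ← Fintype.card_subtype, ← Nat.card_eq_fintype_card, ← Nat.card_eq_fintype_card]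
    have h3 := QuotientGroup.card_preimage_mk H (MulAction.fixedBy (G ⧸ H) i)
    rw [← h3]
    refine Nat.card_congr ((Equiv.inv G).subtypeEquiv fun g => ?_)
    rw [Set.mem_preimage, MulAction.mem_fixedBy]
    change _ ↔ (((i : G) * g⁻¹ : G) : G ⧸ H) = ((g⁻¹ : G) : G ⧸ H)
    rw [eq_comm, QuotientGroup.eq]
    simp [mul_assoc]
  simp only [h1]
  rw [Finset.sum_comm]
  simp only [h2]
  rw [← Finset.mul_sum]
  have h4 := MulAction.sum_card_fixedBy_eq_card_orbits_mul_card_group I (G ⧸ H)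
  rw [h4]
  unfold orb
  rw [Nat.card_eq_fintype_card (α := MulAction.orbitRel.Quotient I (G ⧸ H)), Nat.card_eq_fintype_card (α := I)]
  have h5 : Fintype.card (Quotient (MulAction.orbitRel I (G ⧸ H))) =
      Fintype.card (MulAction.orbitRel.Quotient I (G ⧸ H)) := rfl
  rw [← h5]
  ring

end Pool.Agent.D0H21.TI
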