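import Mathlib
import Pool.Agent.D0H15.TI.Stm2

/-!
# TI, module 7': comparison of the relative discriminants
-/

set_option autoImplicit false
set_option linter.all false

open NumberField Pool.Agent.D0H15.TI

namespace Pool.Agent.D0H21.TI

theorem rd_ne_zero (K E : Type) [Field K] [NumberField K] [Field E] [NumberField E] [Algebra K E] : rd K E ≠ 0 := by
  unfold rd
  intro h
  have h1 := Ideal.absNorm_eq_zero_iff.1 h
  exact differentIdeal_ne_bot h1

theorem t_DISC2 (hC : Pool.Agent.D0H15.TI.S_COMB) (hI : Pool.Agent.D0H15.TI.S_IND2) (hU : Pool.Agent.D0H15.TI.S_UNR2) :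
    Pool.Agent.D0H15.TI.S_DISC2 := by
  classical
  intro K M _ _ _ _ _ _ L F t hcore hsw hmv hsmall
  haveI : FiniteDimensional K M := Module.Finite.of_restrictScalars_finite ℚ K M
  haveI : Finite (M ≃ₐ[K] M) := inferInstance
  have hker : (MulAction.toPermHom (M ≃ₐ[K] M) ((M ≃ₐ[K] M) ⧸ L.fixingSubgroup)).ker = ⊥ := by
    rw [← Subgroup.normalCore_eq_ker, hcore]
  have hfaith : ∀ g : M ≃ₐ[K] M, (∀ x : (M ≃ₐ[K] M) ⧸ L.fixingSubgroup, g • x = x) → g = 1 := by
    intro g hg
    have : g ∈ (MulAction.toPermHom (M ≃ₐ[K] M) ((M ≃ₐ[K] M) ⧸ L.fixingSubgroup)).ker := by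
      rw [MonoidHom.mem_ker]
      ext x
      exact hg x
    rw [hker] at this
    exact this
  have hXn : Nat.card ((M ≃ₐ[K] M) ⧸ L.fixingSubgroup) = Module.finrank K L := by
    rw [IntermediateField.finrank_eq_fixingSubgroup_index]
    rfl
  have hZn : Nat.card ((M ≃ₐ[K] M) ⧸ F.fixingSubgroup) = Module.finrank K F := by
    rw [IntermediateField.finrank_eq_fixingSubgroup_index]
    rfl
  have hdF : rd K F ≠ 0 := rd_ne_zero K F
  have hdL : rd K L ≠ 0 := rd_ne_zero K L
  refine Nat.le_of_dvd (Nat.pos_of_ne_zero (pow_ne_zero t hdL)) ?_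
  rw [← Nat.factorization_prime_le_iff_dvd hdF (pow_ne_zero t hdL)]
  intro p hp
  rw [Nat.factorization_pow, Finsupp.smul_apply, smul_eq_mul, Nat.factorization_def _ hp, Nat.factorization_def _ hp]
  by_cases hpn : p ≤ Module.finrank K L
  · have h1 := hU K M L F hcore p hp (hsmall p hp hpn)
    rw [padicValNat.eq_zero_of_not_dvd h1]
    exact Nat.zero_le _
  · have hpG : ¬ p ∣ Module.finrank K M := by
      intro h
      have h2 : Nat.card (M ≃ₐ[K] M) = Module.finrank K M := IsGalois.card_aut_eq_finrank K M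
      have h3 : Nat.card (M ≃ₐ[K] M) ∣ Nat.card (Equiv.Perm ((M ≃ₐ[K] M) ⧸ L.fixingSubgroup)) :=
        Subgroup.card_dvd_of_injective _ ((MonoidHom.ker_eq_bot_iff _).1 hker)
      rw [h2, Nat.card_perm, hXn] at h3
      exact hpn ((hp.dvd_factorial).1 (h.trans h3))
    obtain ⟨r, f, I, hI'⟩ := hI K M p hp hpG
    have h4 := hI' F
    have h5 := hI' L
    have h6 : ∀ j, Module.finrank K F + t * orb (I j) L.fixingSubgroup ≤
        orb (I j) F.fixingSubgroup + t * Module.finrank K L := by
      intro j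
      have h7 := hC (M ≃ₐ[K] M) ((M ≃ₐ[K] M) ⧸ L.fixingSubgroup) ((M ≃ₐ[K] M) ⧸ F.fixingSubgroup) t hfaith
        (fun a b => by
          obtain ⟨g, hg⟩ := hsw a b
          refine ⟨g, fun x => ?_⟩
          rw [hg x]
          congr
          exact Subsingleton.elim _ _)
        (fun g hg => by
          obtain ⟨a, b, hab, h⟩ := hg
          refine hmv g ⟨a, b, hab, fun x => ?_⟩
          rw [h x]
          congr
          exact Subsingleton.elim _ _) (I j)
      rw [hXn, hZn] at h7
      exact h7
    have h8 : (∑ j, f j) * Module.finrank K F + t * ∑ j, f j * orb (I j) L.fixingSubgroup ≤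
        (∑ j, f j * orb (I j) F.fixingSubgroup) + t * ((∑ j, f j) * Module.finrank K L) := by
      have h9 : ∑ j, f j * (Module.finrank K F + t * orb (I j) L.fixingSubgroup) ≤
          ∑ j, f j * (orb (I j) F.fixingSubgroup + t * Module.finrank K L) :=
        Finset.sum_le_sum fun j _ => Nat.mul_le_mul_left _ (h6 j)
      have e1 : ∑ j, f j * (Module.finrank K F + t * orb (I j) L.fixingSubgroup) =
          (∑ j, f j) * Module.finrank K F + t * ∑ j, f j * orb (I j) L.fixingSubgroup := by
        rw [Finset.sum_mul, Finset.mul_sum, ← Finset.sum_add_distrib]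
        refine Finset.sum_congr rfl fun j _ => ?_
        ring
      have e2 : ∑ j, f j * (orb (I j) F.fixingSubgroup + t * Module.finrank K L) =
          (∑ j, f j * orb (I j) F.fixingSubgroup) + t * ((∑ j, f j) * Module.finrank K L) := by
        rw [Finset.sum_mul, Finset.mul_sum, ← Finset.sum_add_distrib]
        refine Finset.sum_congr rfl fun j _ => ?_
        ring
      rw [e1, e2] at h9
      exact h9
    rw [← h4, ← h5] at h8
    have h10 : t * (padicValNat p (rd K L) + ∑ j, f j * orb (I j) L.fixingSubgroup) =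
        t * padicValNat p (rd K L) + t * ∑ j, f j * orb (I j) L.fixingSubgroup := mul_add _ _ _
    omega

end Pool.Agent.D0H21.TI
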