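import Mathlib
import Pool.Agent.D0H15.TI.Stm

/-!
# TI, module 5: the discriminant exponent at a tame prime
-/

set_option autoImplicit false
set_option linter.all false

open NumberField Pool.Agent.D0H15.TI

namespace Pool.Agent.D0H21.TI

open scoped Pointwise

section

variable {M : Type} [Field M] [NumberField M]

theorem fs_smul (K : IntermediateField ℚ M) (h : K.fixingSubgroup) (x : 𝓞 M) :
    (IntermediateField.fixingSubgroupEquiv K h) • x = (h : M ≃ₐ[ℚ] M) • x := by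
  apply NumberField.RingOfIntegers.ext
  rfl

theorem inertia_iff (K : IntermediateField ℚ M) (P : Ideal (𝓞 M)) (g : M ≃ₐ[ℚ] M) (h : K.fixingSubgroup) :
    g⁻¹ * (h : M ≃ₐ[ℚ] M) * g ∈ P.inertia (M ≃ₐ[ℚ] M) ↔
      IntermediateField.fixingSubgroupEquiv K h ∈ (g • P).inertia (M ≃ₐ[K] M) := by
  have key : ∀ y : 𝓞 M, (IntermediateField.fixingSubgroupEquiv K h) • y - y ∈ g • P ↔
      (g⁻¹ * (h : M ≃ₐ[ℚ] M) * g) • (g⁻¹ • y) - g⁻¹ • y ∈ P := by
    intro y
    rw [Ideal.mem_pointwise_smul_iff_inv_smul_mem, fs_smul, smul_sub, smul_smul, smul_smul]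
    simp only [mul_assoc, mul_inv_cancel, mul_one]
  constructor
  · intro h1 y
    exact (key y).2 (h1 (g⁻¹ • y))
  · intro h1 x
    have h2 := (key (g • x)).1 (h1 (g • x))
    rw [inv_smul_smul] at h2
    exact h2

theorem inertia_card (K : IntermediateField ℚ M) (P : Ideal (𝓞 M)) (g : M ≃ₐ[ℚ] M) :
    Nat.card ((g • P).inertia (M ≃ₐ[K] M)) =
      Nat.card {i : M ≃ₐ[ℚ] M // i ∈ P.inertia (M ≃ₐ[ℚ] M) ∧ g * i * g⁻¹ ∈ K.fixingSubgroup} := by
  have e1 : {i : M ≃ₐ[ℚ] M // i ∈ P.inertia (M ≃ₐ[ℚ] M) ∧ g * i * g⁻¹ ∈ K.fixingSubgroup} ≃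
      {h : K.fixingSubgroup // g⁻¹ * (h : M ≃ₐ[ℚ] M) * g ∈ P.inertia (M ≃ₐ[ℚ] M)} :=
    { toFun := fun x => ⟨⟨g * x.1 * g⁻¹, x.2.2⟩, by
        have : g⁻¹ * (g * x.1 * g⁻¹) * g = x.1 := by group
        simp only [this]
        exact x.2.1⟩
      invFun := fun y => ⟨g⁻¹ * (y.1 : M ≃ₐ[ℚ] M) * g, y.2, by
        have : g * (g⁻¹ * (y.1 : M ≃ₐ[ℚ] M) * g) * g⁻¹ = y.1 := by group
        rw [this]
        exact y.1.2⟩
      left_inv := fun x => by
        apply Subtype.ext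
        change g⁻¹ * (g * x.1 * g⁻¹) * g = x.1
        group
      right_inv := fun y => by
        apply Subtype.ext
        apply Subtype.ext
        change g * (g⁻¹ * (y.1 : M ≃ₐ[ℚ] M) * g) * g⁻¹ = y.1
        group }
  rw [Nat.card_congr e1]
  exact (Nat.card_congr ((IntermediateField.fixingSubgroupEquiv K).toEquiv.subtypeEquiv fun h =>
    inertia_iff K P g h)).symm

theorem smul_nat (g : M ≃ₐ[ℚ] M) (k : ℕ) : g • ((k : ℕ) : 𝓞 M) = k :=
  map_natCast (MulSemiringAction.toRingHom (M ≃ₐ[ℚ] M) (𝓞 M) g) k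

theorem smul_max (g : M ≃ₐ[ℚ] M) (P : Ideal (𝓞 M)) (hP : P.IsMaximal) : (g • P).IsMaximal := by
  have e : g • P = P.map (MulSemiringAction.toRingEquiv (M ≃ₐ[ℚ] M) (𝓞 M) g) := rfl
  rw [e]
  exact Ideal.map_isMaximal_of_equiv _

theorem not_mem_of_coprime (P : Ideal (𝓞 M)) (hP : P.IsMaximal) (p c : ℕ) (hp : ((p : ℕ) : 𝓞 M) ∈ P)
    (h : Nat.Coprime c p) : ((c : ℕ) : 𝓞 M) ∉ P := by
  intro hc
  obtain ⟨a, b, hab⟩ := Nat.isCoprime_iff_coprime.2 h
  apply hP.ne_top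
  rw [Ideal.eq_top_iff_one]
  have h1 : (1 : 𝓞 M) = (a : 𝓞 M) * c + (b : 𝓞 M) * p := by
    have := congrArg (Int.cast : ℤ → 𝓞 M) hab
    push_cast at this
    exact this.symm
  rw [h1]
  exact Ideal.add_mem _ (Ideal.mul_mem_left _ _ hc) (Ideal.mul_mem_left _ _ hp)

theorem exists_max (p : ℕ) (hp : p.Prime) : ∃ P : Ideal (𝓞 M), P.IsMaximal ∧ ((p : ℕ) : 𝓞 M) ∈ P := by
  have h1 : Ideal.span {((p : ℕ) : 𝓞 M)} ≠ ⊤ := by
    intro h
    have h2 := Ideal.absNorm_span_natCast (S := 𝓞 M) p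
    rw [h, Ideal.absNorm_top] at h2
    have h3 : Module.finrank ℤ (𝓞 M) ≠ 0 := by
      rw [NumberField.RingOfIntegers.rank]
      exact Module.finrank_pos.ne'
    exact absurd h2.symm (Nat.one_lt_pow h3 hp.one_lt).ne'
  obtain ⟨P, hP, hle⟩ := Ideal.exists_le_maximal _ h1
  exact ⟨P, hP, hle (Ideal.mem_span_singleton_self _)⟩

end

theorem orb_top {G : Type} [Group G] (I : Subgroup G) : orb I (⊤ : Subgroup G) = 1 := by
  unfold orb
  haveI : Subsingleton (G ⧸ (⊤ : Subgroup G)) := QuotientGroup.subsingleton_quotient_top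
  haveI : Subsingleton (MulAction.orbitRel.Quotient I (G ⧸ (⊤ : Subgroup G))) :=
    ⟨fun a b => by
      induction a using Quotient.inductionOn
      induction b using Quotient.inductionOn
      congr 1
      exact Subsingleton.elim _ _⟩
  haveI : Nonempty (MulAction.orbitRel.Quotient I (G ⧸ (⊤ : Subgroup G))) :=
    ⟨Quotient.mk _ (QuotientGroup.mk 1)⟩
  exact Nat.card_unique

theorem t_IND (hB : Pool.Agent.D0H15.TI.S_BURN) (hT : Pool.Agent.D0H15.TI.S_TAME) (hN : Pool.Agent.D0H15.TI.S_NRM) :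
    Pool.Agent.D0H15.TI.S_IND := by
  intro M _ _ _ p hp hpM
  obtain ⟨P, hP, hpP⟩ := exists_max (M := M) p hp
  refine ⟨P.inertia (M ≃ₐ[ℚ] M), ?_⟩
  have hG : Nat.card (M ≃ₐ[ℚ] M) = Module.finrank ℚ M := IsGalois.card_aut_eq_finrank ℚ M
  have hG0 : 0 < Nat.card (M ≃ₐ[ℚ] M) := Nat.card_pos
  have hI0 : 0 < Nat.card (P.inertia (M ≃ₐ[ℚ] M)) := Nat.card_pos
  -- the main relation
  have key : ∀ K : IntermediateField ℚ M, Nat.card (P.inertia (M ≃ₐ[ℚ] M)) *
      padicValNat p (Ideal.absNorm (differentIdeal (𝓞 K) (𝓞 M))) + Nat.card (M ≃ₐ[ℚ] M) =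
      Nat.card (P.inertia (M ≃ₐ[ℚ] M)) * Nat.card K.fixingSubgroup * orb (P.inertia (M ≃ₐ[ℚ] M)) K.fixingSubgroup := by
    intro K
    obtain ⟨c, hc⟩ : ∃ c : (M ≃ₐ[ℚ] M) → ℕ, c = fun g =>
      Nat.card {i : M ≃ₐ[ℚ] M // i ∈ P.inertia (M ≃ₐ[ℚ] M) ∧ g * i * g⁻¹ ∈ K.fixingSubgroup} := ⟨_, rfl⟩
    have hc' : ∀ g, Nat.card ((g • P).inertia (M ≃ₐ[K] M)) = c g := by
      intro g
      rw [hc]
      exact inertia_card K P g
    have hc0 : ∀ g, 0 < c g := by
      intro g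
      rw [← hc']
      exact Nat.card_pos
    have hcp : ∀ g, Nat.Coprime (c g) p := by
      intro g
      rw [Nat.coprime_comm, hp.coprime_iff_not_dvd]
      intro h
      apply hpM
      refine h.trans ?_
      rw [← hc']
      refine (Subgroup.card_subgroup_dvd_card ((g • P).inertia (M ≃ₐ[K] M))).trans ?_
      rw [IsGalois.card_aut_eq_finrank, ← Module.finrank_mul_finrank ℚ K M]
      exact Dvd.intro_left _ rfl
    have hv : ∀ g : M ≃ₐ[ℚ] M, (g • P) ^ (c g - 1) ∣ differentIdeal (𝓞 K) (𝓞 M) ∧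
        ¬ (g • P) ^ (c g - 1 + 1) ∣ differentIdeal (𝓞 K) (𝓞 M) := by
      intro g
      have hmem : ((p : ℕ) : 𝓞 M) ∈ g • P := by
        rw [Ideal.mem_pointwise_smul_iff_inv_smul_mem, smul_nat]
        exact hpP
      have h1 := hT K M (g • P) (smul_max g P hP) (by
        rw [hc']
        exact not_mem_of_coprime _ (smul_max g P hP) p _ hmem (hcp g))
      rw [hc'] at h1
      rw [Nat.sub_add_cancel (hc0 g)]
      exact h1
    have h2 := hN M p hp P hP hpP (differentIdeal (𝓞 K) (𝓞 M)) differentIdeal_ne_bot (fun g => c g - 1) hv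
    have h3 := hB (M ≃ₐ[ℚ] M) (P.inertia (M ≃ₐ[ℚ] M)) K.fixingSubgroup
    have h4 : ∑ g : M ≃ₐ[ℚ] M, c g = (∑ g : M ≃ₐ[ℚ] M, (c g - 1)) + Nat.card (M ≃ₐ[ℚ] M) := by
      rw [Nat.card_eq_fintype_card, Fintype.card_eq_sum_ones, ← Finset.sum_add_distrib]
      refine Finset.sum_congr rfl fun g _ => ?_
      have := hc0 g
      omega
    rw [h2, ← h4, hc]
    exact h3
  have hcard : ∀ K : IntermediateField ℚ M, Nat.card K.fixingSubgroup = Module.finrank K M := by
    intro K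
    rw [Nat.card_congr (IntermediateField.fixingSubgroupEquiv K).toEquiv, IsGalois.card_aut_eq_finrank]
  have hdisc : ∀ K : IntermediateField ℚ M, padicValNat p (NumberField.discr M).natAbs =
      padicValNat p (Ideal.absNorm (differentIdeal (𝓞 K) (𝓞 M))) +
        Nat.card K.fixingSubgroup * padicValNat p (NumberField.discr K).natAbs := by
    intro K
    haveI : Fact p.Prime := ⟨hp⟩
    have h1 := NumberField.natAbs_discr_eq_absNorm_differentIdeal_mul_natAbs_discr_pow K (𝓞 K) M (𝓞 M)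
    have hM0 : (NumberField.discr M).natAbs ≠ 0 := Int.natAbs_ne_zero.2 (NumberField.discr_ne_zero M)
    have hK0 : (NumberField.discr K).natAbs ≠ 0 := Int.natAbs_ne_zero.2 (NumberField.discr_ne_zero K)
    rw [h1] at hM0
    rw [h1, padicValNat.mul (left_ne_zero_of_mul hM0) (right_ne_zero_of_mul hM0), padicValNat.pow, hcard]
  have hbot : padicValNat p (NumberField.discr (⊥ : IntermediateField ℚ M)).natAbs = 0 := by
    have h1 : NumberField.discr (⊥ : IntermediateField ℚ M) = NumberField.discr ℚ :=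
      NumberField.discr_eq_discr_of_algEquiv _ (IntermediateField.botEquiv ℚ M)
    rw [h1, NumberField.discr_rat]
    simp
  intro K
  have k1 := key K
  have k2 := key ⊥
  have d1 := hdisc K
  have d2 := hdisc ⊥
  rw [hbot, mul_zero, add_zero] at d2
  rw [IntermediateField.fixingSubgroup_bot, orb_top, mul_one] at k2
  have e1 : Nat.card (⊤ : Subgroup (M ≃ₐ[ℚ] M)) = Nat.card (M ≃ₐ[ℚ] M) := Subgroup.card_top
  rw [e1] at k2
  have e2 : Module.finrank ℚ K * Nat.card K.fixingSubgroup = Nat.card (M ≃ₐ[ℚ] M) := by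
    rw [hcard, Module.finrank_mul_finrank, hG]
  have hH0 : 0 < Nat.card K.fixingSubgroup := Nat.card_pos
  rw [← d2, d1] at k2
  generalize Nat.card (P.inertia (M ≃ₐ[ℚ] M)) = i at *
  generalize Nat.card (M ≃ₐ[ℚ] M) = gg at *
  generalize Nat.card K.fixingSubgroup = h at *
  generalize padicValNat p (Ideal.absNorm (differentIdeal (𝓞 K) (𝓞 M))) = a at *
  generalize padicValNat p (NumberField.discr K).natAbs = b at *
  generalize orb (P.inertia (M ≃ₐ[ℚ] M)) K.fixingSubgroup = o at *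
  generalize Module.finrank ℚ K = f at *
  have h5 : i * h * (b + o) = i * h * f := by
    calc i * h * (b + o) = i * h * b + i * h * o := by ring
      _ = i * h * b + (i * a + gg) := by rw [k1]
      _ = i * (a + h * b) + gg := by ring
      _ = i * gg := k2
      _ = i * (f * h) := by rw [e2]
      _ = i * h * f := by ring
  exact Nat.eq_of_mul_eq_mul_left (Nat.mul_pos hI0 hH0) h5

end Pool.Agent.D0H21.TI
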