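import Mathlib
import Pool.Agent.D0H15.TI.Stm2
import Pool.Agent.D0H21.TI.Ind

/-!
# TI, relative versions: inertia groups and different over an arbitrary base
-/

set_option autoImplicit false
set_option linter.all false

open NumberField Pool.Agent.D0H15.TI

namespace Pool.Agent.D0H21.TI.Rel

open scoped Pointwise

section

variable {K M : Type} [Field K] [NumberField K] [Field M] [NumberField M] [Algebra K M]

theorem fs_smul (E : IntermediateField K M) (h : E.fixingSubgroup) (x : 𝓞 M) :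
    (IntermediateField.fixingSubgroupEquiv E h) • x = (h : M ≃ₐ[K] M) • x := by
  apply NumberField.RingOfIntegers.ext
  rfl

theorem inertia_iff (E : IntermediateField K M) (P : Ideal (𝓞 M)) (g : M ≃ₐ[K] M) (h : E.fixingSubgroup) :
    g⁻¹ * (h : M ≃ₐ[K] M) * g ∈ P.inertia (M ≃ₐ[K] M) ↔
      IntermediateField.fixingSubgroupEquiv E h ∈ (g • P).inertia (M ≃ₐ[E] M) := by
  have key : ∀ y : 𝓞 M, (IntermediateField.fixingSubgroupEquiv E h) • y - y ∈ g • P ↔
      (g⁻¹ * (h : M ≃ₐ[K] M) * g) • (g⁻¹ • y) - g⁻¹ • y ∈ P := by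
    intro y
    rw [Ideal.mem_pointwise_smul_iff_inv_smul_mem, fs_smul, smul_sub, smul_smul, smul_smul]
    simp only [mul_assoc, mul_inv_cancel, mul_one]
  constructor
  · intro h1 y
    exact (key y).2 (h1 (g⁻¹ • y))
  · intro h1 x
    have h2 := (key (g • x)).1 (h1 (g • x))
    rw [inv_smul_smul] at h2
    exact h2

theorem inertia_card (E : IntermediateField K M) (P : Ideal (𝓞 M)) (g : M ≃ₐ[K] M) :
    Nat.card ((g • P).inertia (M ≃ₐ[E] M)) =
      Nat.card {i : M ≃ₐ[K] M // i ∈ P.inertia (M ≃ₐ[K] M) ∧ g * i * g⁻¹ ∈ E.fixingSubgroup} := by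
  have e1 : {i : M ≃ₐ[K] M // i ∈ P.inertia (M ≃ₐ[K] M) ∧ g * i * g⁻¹ ∈ E.fixingSubgroup} ≃
      {h : E.fixingSubgroup // g⁻¹ * (h : M ≃ₐ[K] M) * g ∈ P.inertia (M ≃ₐ[K] M)} :=
    { toFun := fun x => ⟨⟨g * x.1 * g⁻¹, x.2.2⟩, by
        have : g⁻¹ * (g * x.1 * g⁻¹) * g = x.1 := by group
        simp only [this]
        exact x.2.1⟩
      invFun := fun y => ⟨g⁻¹ * (y.1 : M ≃ₐ[K] M) * g, y.2, by
        have : g * (g⁻¹ * (y.1 : M ≃ₐ[K] M) * g) * g⁻¹ = y.1 := by group
        rw [this]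
        exact y.1.2⟩
      left_inv := fun x => by
        apply Subtype.ext
        change g⁻¹ * (g * x.1 * g⁻¹) * g = x.1
        group
      right_inv := fun y => by
        apply Subtype.ext
        apply Subtype.ext
        change g * (g⁻¹ * (y.1 : M ≃ₐ[K] M) * g) * g⁻¹ = y.1
        group }
  rw [Nat.card_congr e1]
  exact (Nat.card_congr ((IntermediateField.fixingSubgroupEquiv E).toEquiv.subtypeEquiv fun h =>
    inertia_iff E P g h)).symm

/-- the inertia group of a conjugate over the base -/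
theorem inertia_card_smul (P : Ideal (𝓞 M)) (g : M ≃ₐ[K] M) :
    Nat.card ((g • P).inertia (M ≃ₐ[K] M)) = Nat.card (P.inertia (M ≃ₐ[K] M)) := by
  have key : ∀ h : M ≃ₐ[K] M, h ∈ P.inertia (M ≃ₐ[K] M) ↔ (MulAut.conj g) h ∈ (g • P).inertia (M ≃ₐ[K] M) := by
    intro h
    have k2 : ∀ y : 𝓞 M, (MulAut.conj g h) • y - y ∈ g • P ↔ h • (g⁻¹ • y) - g⁻¹ • y ∈ P := by
      intro y
      rw [Ideal.mem_pointwise_smul_iff_inv_smul_mem, smul_sub, smul_smul, smul_smul, MulAut.conj_apply]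
      have : g⁻¹ * (g * h * g⁻¹) = h * g⁻¹ := by group
      rw [this]
    constructor
    · intro h1 y
      exact (k2 y).2 (h1 (g⁻¹ • y))
    · intro h1 x
      have h2 := (k2 (g • x)).1 (h1 (g • x))
      rw [inv_smul_smul] at h2
      exact h2
  exact (Nat.card_congr ((MulAut.conj g).toEquiv.subtypeEquiv key)).symm

theorem smul_nat (g : M ≃ₐ[K] M) (k : ℕ) : g • ((k : ℕ) : 𝓞 M) = k :=
  map_natCast (MulSemiringAction.toRingHom (M ≃ₐ[K] M) (𝓞 M) g) k

theorem smul_max (g : M ≃ₐ[K] M) (P : Ideal (𝓞 M)) (hP : P.IsMaximal) : (g • P).IsMaximal := by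
  have e : g • P = P.map (MulSemiringAction.toRingEquiv (M ≃ₐ[K] M) (𝓞 M) g) := rfl
  rw [e]
  exact Ideal.map_isMaximal_of_equiv _

theorem smul_prime (g : M ≃ₐ[K] M) (P : Ideal (𝓞 M)) (hP : P.IsPrime) : (g • P).IsPrime := by
  have e : g • P = P.map (MulSemiringAction.toRingEquiv (M ≃ₐ[K] M) (𝓞 M) g) := rfl
  rw [e]
  exact Ideal.map_isPrime_of_equiv _

end

attribute [local instance] FractionRing.liftAlgebra in
theorem rd_tower (K E M : Type) [Field K] [NumberField K] [Field E] [NumberField E] [Field M] [NumberField M]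
    [Algebra K E] [Algebra E M] [Algebra K M] [IsScalarTower K E M] :
    rd K M = rd E M * rd K E ^ Module.finrank E M := by
  unfold rd
  have h := congrArg Ideal.absNorm (differentIdeal_eq_differentIdeal_mul_differentIdeal (𝓞 K) (𝓞 E) (𝓞 M))
  rw [map_mul, Ideal.absNorm_algebraMap, ← IsFractionRing.finrank_eq (𝓞 E) E (𝓞 M) M] at h
  exact h

attribute [local instance] FractionRing.liftAlgebra in
theorem rd_iff (K E : Type) [Field K] [NumberField K] [Field E] [NumberField E] [Algebra K E] (p : ℕ) (hp : p.Prime) :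
    ¬ p ∣ rd K E ↔ ∀ (P : Ideal (𝓞 E)) (_ : P.IsPrime), ((p : ℕ) : 𝓞 E) ∈ P → Algebra.IsUnramifiedAt (𝓞 K) P := by
  have hpZ : Prime (p : ℤ) := Nat.prime_iff_prime_int.1 hp
  constructor
  · intro h P hP hpP
    rw [← not_dvd_differentIdeal_iff]
    intro h1
    apply h
    have h2 := Ideal.absNorm_dvd_absNorm_of_le (Ideal.dvd_iff_le.mp h1)
    have hpP' : ((p : ℤ) : 𝓞 E) ∈ P := by simpa using hpP
    haveI : P.LiesOver (Ideal.span {(p : ℤ)}) := (Ideal.liesOver_span_iff hP.ne_top hpZ).mpr hpP'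
    haveI hmax : P.IsMaximal := hP.isMaximal (by
      rintro rfl
      rw [Ideal.mem_bot] at hpP
      exact hp.ne_zero (by exact_mod_cast hpP))
    rw [← Ideal.natAbs_pow_inertiaDeg (p : ℤ), Int.natAbs_natCast] at h2
    exact (dvd_pow_self _ (Ideal.inertiaDeg_pos ..).ne').trans h2
  · intro h h1
    have h2 : (p : ℤ) ∣ (Ideal.absNorm (differentIdeal (𝓞 K) (𝓞 E)) : ℤ) := by exact_mod_cast h1
    obtain ⟨P, hP, h₁, h₂⟩ := Ideal.exists_isMaximal_dvd_of_dvd_absNorm hpZ _ h2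
    have h3 : ((p : ℕ) : 𝓞 E) ∈ P := by
      have h4 : (p : ℤ) ∈ P.under ℤ := by
        rw [h₁]
        exact Ideal.mem_span_singleton_self _
      rw [Ideal.under_def, Ideal.mem_comap] at h4
      simpa using h4
    haveI := hP.isPrime
    exact (not_dvd_differentIdeal_iff.2 (h P hP.isPrime h3)) h₂

end Pool.Agent.D0H21.TI.Rel
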