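import Mathlib
import Pool.Agent.D0H15.TI.Stm2
import Pool.Agent.D0H21.TI.Rel

/-!
# TI, module 5': the relative discriminant at tame primes
-/

set_option autoImplicit false
set_option linter.all false

open NumberField Pool.Agent.D0H15.TI

namespace Pool.Agent.D0H21.TI

open scoped Pointwise

theorem t_IND2 (hB : Pool.Agent.D0H15.TI.S_BURN) (hT : Pool.Agent.D0H15.TI.S_TAME) (hN : Pool.Agent.D0H15.TI.S_NRM2) :
    Pool.Agent.D0H15.TI.S_IND2 := by
  intro K M _ _ _ _ _ _ p hp hpM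
  haveI : FiniteDimensional K M := Module.Finite.of_restrictScalars_finite ℚ K M
  obtain ⟨r, f, P, hP, hNR⟩ := hN K M p hp
  refine ⟨r, f, fun j => (P j).inertia (M ≃ₐ[K] M), ?_⟩
  have hG : Nat.card (M ≃ₐ[K] M) = Module.finrank K M := IsGalois.card_aut_eq_finrank K M
  have hG0 : 0 < Nat.card (M ≃ₐ[K] M) := Nat.card_pos
  have hI0 : ∀ j, 0 < Nat.card ((P j).inertia (M ≃ₐ[K] M)) := fun j => Nat.card_pos
  -- intermediate fields
  have key : ∀ E : IntermediateField K M, ∃ w : Fin r → ℕ, (∀ j, Nat.card ((P j).inertia (M ≃ₐ[K] M)) * w j +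
      Nat.card (M ≃ₐ[K] M) = Nat.card ((P j).inertia (M ≃ₐ[K] M)) * Nat.card E.fixingSubgroup *
        orb ((P j).inertia (M ≃ₐ[K] M)) E.fixingSubgroup) ∧ padicValNat p (rd E M) = ∑ j, f j * w j := by
    intro E
    haveI : FiniteDimensional E M := Module.Finite.of_restrictScalars_finite K E M
    obtain ⟨c, hc⟩ : ∃ c : Fin r → (M ≃ₐ[K] M) → ℕ, c = fun j g =>
      Nat.card {i : M ≃ₐ[K] M // i ∈ (P j).inertia (M ≃ₐ[K] M) ∧ g * i * g⁻¹ ∈ E.fixingSubgroup} := ⟨_, rfl⟩
    have hc' : ∀ j g, Nat.card ((g • P j).inertia (M ≃ₐ[E] M)) = c j g := by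
      intro j g
      rw [hc]
      exact Rel.inertia_card E (P j) g
    have hc0 : ∀ j g, 0 < c j g := by
      intro j g
      rw [← hc']
      exact Nat.card_pos
    have hcp : ∀ j g, Nat.Coprime (c j g) p := by
      intro j g
      rw [Nat.coprime_comm, hp.coprime_iff_not_dvd]
      intro h
      apply hpM
      refine h.trans ?_
      rw [← hc']
      refine (Subgroup.card_subgroup_dvd_card ((g • P j).inertia (M ≃ₐ[E] M))).trans ?_
      rw [IsGalois.card_aut_eq_finrank, ← Module.finrank_mul_finrank K E M]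
      exact Dvd.intro_left _ rfl
    have hv : ∀ (j : Fin r) (g : M ≃ₐ[K] M), (g • P j) ^ (c j g - 1) ∣ differentIdeal (𝓞 E) (𝓞 M) ∧
        ¬ (g • P j) ^ (c j g - 1 + 1) ∣ differentIdeal (𝓞 E) (𝓞 M) := by
      intro j g
      have hmem : ((p : ℕ) : 𝓞 M) ∈ g • P j := by
        rw [Ideal.mem_pointwise_smul_iff_inv_smul_mem, Rel.smul_nat]
        exact (hP j).2
      have h1 := hT E M (g • P j) (Rel.smul_max g (P j) (hP j).1) (by
        rw [hc']
        exact not_mem_of_coprime _ (Rel.smul_max g (P j) (hP j).1) p _ hmem (hcp j g))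
      rw [hc'] at h1
      rw [Nat.sub_add_cancel (hc0 j g)]
      exact h1
    obtain ⟨w, hw1, hw2⟩ := hNR (differentIdeal (𝓞 E) (𝓞 M)) differentIdeal_ne_bot (fun j g => c j g - 1) hv
    refine ⟨w, fun j => ?_, hw2⟩
    have h3 := hB (M ≃ₐ[K] M) ((P j).inertia (M ≃ₐ[K] M)) E.fixingSubgroup
    have h4 : ∑ g : M ≃ₐ[K] M, c j g = (∑ g : M ≃ₐ[K] M, (c j g - 1)) + Nat.card (M ≃ₐ[K] M) := by
      rw [Nat.card_eq_fintype_card, Fintype.card_eq_sum_ones, ← Finset.sum_add_distrib]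
      refine Finset.sum_congr rfl fun g _ => ?_
      have := hc0 j g
      omega
    rw [hw1, ← h4, hc]
    exact h3
  -- the base
  have keyK : ∃ w : Fin r → ℕ, (∀ j, Nat.card ((P j).inertia (M ≃ₐ[K] M)) * w j + Nat.card (M ≃ₐ[K] M) =
      Nat.card ((P j).inertia (M ≃ₐ[K] M)) * Nat.card (M ≃ₐ[K] M)) ∧ padicValNat p (rd K M) = ∑ j, f j * w j := by
    have hcp : ∀ j, Nat.Coprime (Nat.card ((P j).inertia (M ≃ₐ[K] M))) p := by
      intro j
      rw [Nat.coprime_comm, hp.coprime_iff_not_dvd]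
      intro h
      apply hpM
      rw [← hG]
      exact h.trans (Subgroup.card_subgroup_dvd_card _)
    have hv : ∀ (j : Fin r) (g : M ≃ₐ[K] M),
        (g • P j) ^ (Nat.card ((P j).inertia (M ≃ₐ[K] M)) - 1) ∣ differentIdeal (𝓞 K) (𝓞 M) ∧
        ¬ (g • P j) ^ (Nat.card ((P j).inertia (M ≃ₐ[K] M)) - 1 + 1) ∣ differentIdeal (𝓞 K) (𝓞 M) := by
      intro j g
      have hmem : ((p : ℕ) : 𝓞 M) ∈ g • P j := by
        rw [Ideal.mem_pointwise_smul_iff_inv_smul_mem, Rel.smul_nat]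
        exact (hP j).2
      have h1 := hT K M (g • P j) (Rel.smul_max g (P j) (hP j).1) (by
        rw [Rel.inertia_card_smul]
        exact not_mem_of_coprime _ (Rel.smul_max g (P j) (hP j).1) p _ hmem (hcp j))
      rw [Rel.inertia_card_smul] at h1
      rw [Nat.sub_add_cancel (hI0 j)]
      exact h1
    obtain ⟨w, hw1, hw2⟩ := hNR (differentIdeal (𝓞 K) (𝓞 M)) differentIdeal_ne_bot
      (fun j _ => Nat.card ((P j).inertia (M ≃ₐ[K] M)) - 1) hv
    refine ⟨w, fun j => ?_, hw2⟩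
    rw [hw1 j, Finset.sum_const, Finset.card_univ, ← Nat.card_eq_fintype_card, smul_eq_mul]
    have h5 := hI0 j
    obtain ⟨a, ha⟩ : ∃ a, Nat.card ((P j).inertia (M ≃ₐ[K] M)) = a + 1 := ⟨_, (Nat.sub_add_cancel h5).symm⟩
    rw [ha]
    simp only [Nat.add_sub_cancel]
    ring
  obtain ⟨w₀, hw₀, hr₀⟩ := keyK
  intro E
  haveI : FiniteDimensional E M := Module.Finite.of_restrictScalars_finite K E M
  obtain ⟨w, hw, hr⟩ := key E
  have hcard : Nat.card E.fixingSubgroup = Module.finrank E M := by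
    rw [Nat.card_congr (IntermediateField.fixingSubgroupEquiv E).toEquiv, IsGalois.card_aut_eq_finrank]
  have hH0 : 0 < Nat.card E.fixingSubgroup := Nat.card_pos
  have htow : padicValNat p (rd K M) = padicValNat p (rd E M) + Nat.card E.fixingSubgroup * padicValNat p (rd K E) := by
    haveI : Fact p.Prime := ⟨hp⟩
    have h1 := Rel.rd_tower K E M
    have hM0 : rd K M ≠ 0 := by
      unfold rd
      intro h
      exact differentIdeal_ne_bot (Ideal.absNorm_eq_zero_iff.1 h)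
    rw [h1] at hM0
    rw [h1, padicValNat.mul (left_ne_zero_of_mul hM0) (right_ne_zero_of_mul hM0), padicValNat.pow, hcard]
  have e2 : Module.finrank K E * Nat.card E.fixingSubgroup = Nat.card (M ≃ₐ[K] M) := by
    rw [hcard, Module.finrank_mul_finrank, hG]
  have hj : ∀ j, w₀ j + Nat.card E.fixingSubgroup * orb ((P j).inertia (M ≃ₐ[K] M)) E.fixingSubgroup =
      w j + Nat.card (M ≃ₐ[K] M) := by
    intro j
    have a1 := hw j
    have a2 := hw₀ j
    refine Nat.eq_of_mul_eq_mul_left (hI0 j) ?_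
    have a3 : Nat.card ((P j).inertia (M ≃ₐ[K] M)) * (w₀ j + Nat.card E.fixingSubgroup *
        orb ((P j).inertia (M ≃ₐ[K] M)) E.fixingSubgroup) =
        Nat.card ((P j).inertia (M ≃ₐ[K] M)) * w₀ j + Nat.card ((P j).inertia (M ≃ₐ[K] M)) *
          Nat.card E.fixingSubgroup * orb ((P j).inertia (M ≃ₐ[K] M)) E.fixingSubgroup := by ring
    have a4 : Nat.card ((P j).inertia (M ≃ₐ[K] M)) * (w j + Nat.card (M ≃ₐ[K] M)) =
        Nat.card ((P j).inertia (M ≃ₐ[K] M)) * w j + Nat.card ((P j).inertia (M ≃ₐ[K] M)) * Nat.card (M ≃ₐ[K] M) := by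
      ring
    rw [a3, a4, ← a1, ← a2]
    ring
  have hsum : (∑ j, f j * w₀ j) + Nat.card E.fixingSubgroup *
      ∑ j, f j * orb ((P j).inertia (M ≃ₐ[K] M)) E.fixingSubgroup =
      (∑ j, f j * w j) + (∑ j, f j) * Nat.card (M ≃ₐ[K] M) := by
    rw [Finset.mul_sum, Finset.sum_mul, ← Finset.sum_add_distrib, ← Finset.sum_add_distrib]
    refine Finset.sum_congr rfl fun j _ => ?_
    have := hj j
    calc f j * w₀ j + Nat.card E.fixingSubgroup * (f j * orb ((P j).inertia (M ≃ₐ[K] M)) E.fixingSubgroup) =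
        f j * (w₀ j + Nat.card E.fixingSubgroup * orb ((P j).inertia (M ≃ₐ[K] M)) E.fixingSubgroup) := by ring
      _ = f j * (w j + Nat.card (M ≃ₐ[K] M)) := by rw [this]
      _ = _ := by ring
  rw [← hr₀, ← hr, htow] at hsum
  refine Nat.eq_of_mul_eq_mul_left hH0 ?_
  have b1 : Nat.card E.fixingSubgroup * (padicValNat p (rd K E) +
      ∑ j, f j * orb ((P j).inertia (M ≃ₐ[K] M)) E.fixingSubgroup) =
      Nat.card E.fixingSubgroup * padicValNat p (rd K E) + Nat.card E.fixingSubgroup *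
        ∑ j, f j * orb ((P j).inertia (M ≃ₐ[K] M)) E.fixingSubgroup := mul_add _ _ _
  have b2 : Nat.card E.fixingSubgroup * ((∑ j, f j) * Module.finrank K E) =
      (∑ j, f j) * Nat.card (M ≃ₐ[K] M) := by
    rw [← e2]
    ring
  rw [b1, b2]
  omega

end Pool.Agent.D0H21.TI
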