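import Mathlib
import Pool.Agent.D0H15.TI.Stm2
import Pool.Agent.D0H21.TI.Rel

/-!
# TI, module 6': unramified primes in the Galois closure, over any base
-/

set_option autoImplicit false
set_option linter.all false

open NumberField Pool.Agent.D0H15.TI

namespace Pool.Agent.D0H21.TI

open scoped Pointwise

namespace Rel

variable {K M : Type} [Field K] [NumberField K] [Field M] [NumberField M] [Algebra K M] [IsGalois K M]

theorem card_e (P : Ideal (𝓞 M)) [P.IsPrime] :
    Nat.card (P.inertia (M ≃ₐ[K] M)) = P.ramificationIdx (𝓞 K) := by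
  haveI : FiniteDimensional K M := Module.Finite.of_restrictScalars_finite ℚ K M
  rw [Ideal.card_inertia_eq_ramificationIdxIn (P.under (𝓞 K)) P,
    Ideal.ramificationIdxIn_eq_ramificationIdx (P.under (𝓞 K)) P (M ≃ₐ[K] M)]

end Rel

theorem t_UNR2 : Pool.Agent.D0H15.TI.S_UNR2 := by
  intro K M _ _ _ _ _ _ L F hcore p hp hL hF
  haveI : FiniteDimensional K M := Module.Finite.of_restrictScalars_finite ℚ K M
  have hM : ¬ p ∣ rd K M := by
    rw [Rel.rd_iff K M p hp]
    intro P hP hpP
    have key : ∀ g : M ≃ₐ[K] M, ∀ i ∈ P.inertia (M ≃ₐ[K] M), g * i * g⁻¹ ∈ L.fixingSubgroup := by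
      intro g
      haveI hgP : (g • P).IsPrime := Rel.smul_prime g P hP
      have hmem : ((p : ℕ) : 𝓞 M) ∈ g • P := by
        rw [Ideal.mem_pointwise_smul_iff_inv_smul_mem, Rel.smul_nat]
        exact hpP
      have h1 : ((g • P).under (𝓞 L)).ramificationIdx (𝓞 K) = 1 := by
        have h2 := (Rel.rd_iff K L p hp).1 hL ((g • P).under (𝓞 L)) inferInstance (by
          rw [Ideal.under_def, Ideal.mem_comap]
          simpa using hmem)
        exact Ideal.ramificationIdx_eq_one_iff.2 h2
      have h3 : (g • P).ramificationIdx (𝓞 K) = (g • P).ramificationIdx (𝓞 L) := by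
        rw [Ideal.ramificationIdx_tower ((g • P).under (𝓞 L)) (g • P) (R := 𝓞 K), h1, one_mul]
      have h4 : Nat.card ((g • P).inertia (M ≃ₐ[K] M)) = Nat.card (P.inertia (M ≃ₐ[K] M)) :=
        Rel.inertia_card_smul P g
      have h5 : Nat.card {i : M ≃ₐ[K] M // i ∈ P.inertia (M ≃ₐ[K] M) ∧ g * i * g⁻¹ ∈ L.fixingSubgroup} =
          Nat.card (P.inertia (M ≃ₐ[K] M)) := by
        rw [← Rel.inertia_card L P g, Rel.card_e, ← h3, ← Rel.card_e, h4]
      have h6 : {i : M ≃ₐ[K] M | i ∈ P.inertia (M ≃ₐ[K] M) ∧ g * i * g⁻¹ ∈ L.fixingSubgroup} =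
          (P.inertia (M ≃ₐ[K] M) : Set (M ≃ₐ[K] M)) := by
        refine Set.eq_of_subset_of_ncard_le (fun i hi => hi.1) ?_ (Set.toFinite _)
        exact le_of_eq h5.symm
      intro i hi
      have h7 : i ∈ {i : M ≃ₐ[K] M | i ∈ P.inertia (M ≃ₐ[K] M) ∧ g * i * g⁻¹ ∈ L.fixingSubgroup} := by
        rw [h6]
        exact hi
      exact h7.2
    have hbot : P.inertia (M ≃ₐ[K] M) = ⊥ := by
      rw [eq_bot_iff, ← hcore]
      intro i hi g
      exact key g i hi
    have he : P.ramificationIdx (𝓞 K) = 1 := by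
      rw [← Rel.card_e, hbot]
      exact Subgroup.card_bot
    exact Ideal.ramificationIdx_eq_one_iff.1 he
  apply hM
  rw [Rel.rd_tower K F M]
  haveI : FiniteDimensional F M := Module.Finite.of_restrictScalars_finite K F M
  exact (hF.trans (dvd_pow_self _ Module.finrank_pos.ne')).trans (Dvd.intro_left _ rfl)

end Pool.Agent.D0H21.TI
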