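import Mathlib
import Pool.Agent.D0H15.TI.Stm

/-!
# TI, module 7: comparison of the discriminants
-/

set_option autoImplicit false
set_option linter.all false

open NumberField Pool.Agent.D0H15.TI

namespace Pool.Agent.D0H21.TI

theorem t_DISC (hC : Pool.Agent.D0H15.TI.S_COMB) (hI : Pool.Agent.D0H15.TI.S_IND) (hU : Pool.Agent.D0H15.TI.S_UNR) :
    Pool.Agent.D0H15.TI.S_DISC := by
  classical
  intro M _ _ _ L F t hcore hsw hmv hsmall
  haveI : Finite (M ≃ₐ[ℚ] M) := inferInstance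
  have hker : (MulAction.toPermHom (M ≃ₐ[ℚ] M) ((M ≃ₐ[ℚ] M) ⧸ L.fixingSubgroup)).ker = ⊥ := by
    rw [← Subgroup.normalCore_eq_ker, hcore]
  have hfaith : ∀ g : M ≃ₐ[ℚ] M, (∀ x : (M ≃ₐ[ℚ] M) ⧸ L.fixingSubgroup, g • x = x) → g = 1 := by
    intro g hg
    have : g ∈ (MulAction.toPermHom (M ≃ₐ[ℚ] M) ((M ≃ₐ[ℚ] M) ⧸ L.fixingSubgroup)).ker := by
      rw [MonoidHom.mem_ker]
      ext x
      exact hg x
    rw [hker] at this
    exact this
  have hXn : Nat.card ((M ≃ₐ[ℚ] M) ⧸ L.fixingSubgroup) = Module.finrank ℚ L := by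
    rw [IntermediateField.finrank_eq_fixingSubgroup_index]
    rfl
  have hZn : Nat.card ((M ≃ₐ[ℚ] M) ⧸ F.fixingSubgroup) = Module.finrank ℚ F := by
    rw [IntermediateField.finrank_eq_fixingSubgroup_index]
    rfl
  have hdF : (NumberField.discr F).natAbs ≠ 0 := Int.natAbs_ne_zero.2 (NumberField.discr_ne_zero F)
  have hdL : (NumberField.discr L).natAbs ≠ 0 := Int.natAbs_ne_zero.2 (NumberField.discr_ne_zero L)
  refine Nat.le_of_dvd (Nat.pos_of_ne_zero (pow_ne_zero t hdL)) ?_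
  rw [← Nat.factorization_prime_le_iff_dvd hdF (pow_ne_zero t hdL)]
  intro p hp
  rw [Nat.factorization_pow, Finsupp.smul_apply, smul_eq_mul, Nat.factorization_def _ hp, Nat.factorization_def _ hp]
  by_cases hpn : p ≤ Module.finrank ℚ L
  · have h1 := hU M L F hcore p hp (hsmall p hp hpn)
    rw [Int.natCast_dvd] at h1
    rw [padicValNat.eq_zero_of_not_dvd h1]
    exact Nat.zero_le _
  · have hpG : ¬ p ∣ Module.finrank ℚ M := by
      intro h
      have h2 : Nat.card (M ≃ₐ[ℚ] M) = Module.finrank ℚ M := IsGalois.card_aut_eq_finrank ℚ M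
      have h3 : Nat.card (M ≃ₐ[ℚ] M) ∣ Nat.card (Equiv.Perm ((M ≃ₐ[ℚ] M) ⧸ L.fixingSubgroup)) :=
        Subgroup.card_dvd_of_injective _ ((MonoidHom.ker_eq_bot_iff _).1 hker)
      rw [h2, Nat.card_perm, hXn] at h3
      exact hpn ((hp.dvd_factorial).1 (h.trans h3))
    obtain ⟨I, hI'⟩ := hI M p hp hpG
    have h4 := hI' F
    have h5 := hI' L
    have h6 := hC (M ≃ₐ[ℚ] M) ((M ≃ₐ[ℚ] M) ⧸ L.fixingSubgroup) ((M ≃ₐ[ℚ] M) ⧸ F.fixingSubgroup) t hfaith
      (fun a b => by
        obtain ⟨g, hg⟩ := hsw a b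
        refine ⟨g, fun x => ?_⟩
        rw [hg x]
        congr
        exact Subsingleton.elim _ _)
      (fun g hg => by
        obtain ⟨a, b, hab, h⟩ := hg
        refine hmv g ⟨a, b, hab, fun x => ?_⟩
        rw [h x]
        congr
        exact Subsingleton.elim _ _) I
    rw [hXn, hZn] at h6
    have h7 : Module.finrank ℚ F + t * orb I L.fixingSubgroup ≤ orb I F.fixingSubgroup + t * Module.finrank ℚ L := h6
    rw [← h4, ← h5] at h7
    have h9 : t * (padicValNat p (NumberField.discr L).natAbs + orb I L.fixingSubgroup) =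
        t * padicValNat p (NumberField.discr L).natAbs + t * orb I L.fixingSubgroup := mul_add _ _ _
    omega

end Pool.Agent.D0H21.TI
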