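import Mathlib
import Pool.Agent.D0H15.TI.Stm
import Pool.Agent.D0H21.TI.Ind

/-!
# TI, module 6: unramified primes in the Galois closure
-/

set_option autoImplicit false
set_option linter.all false

open NumberField Pool.Agent.D0H15.TI

namespace Pool.Agent.D0H21.TI

open scoped Pointwise

section

variable {M : Type} [Field M] [NumberField M] [IsGalois ℚ M]

theorem card_e (K : IntermediateField ℚ M) (P : Ideal (𝓞 M)) [P.IsPrime] :
    Nat.card (P.inertia (M ≃ₐ[K] M)) = P.ramificationIdx (𝓞 K) := by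
  rw [Ideal.card_inertia_eq_ramificationIdxIn (P.under (𝓞 K)) P,
    Ideal.ramificationIdxIn_eq_ramificationIdx (P.under (𝓞 K)) P (M ≃ₐ[K] M)]

theorem card_e' (P : Ideal (𝓞 M)) [P.IsPrime] :
    Nat.card (P.inertia (M ≃ₐ[ℚ] M)) = P.ramificationIdx ℤ := by
  rw [Ideal.card_inertia_eq_ramificationIdxIn (P.under ℤ) P,
    Ideal.ramificationIdxIn_eq_ramificationIdx (P.under ℤ) P (M ≃ₐ[ℚ] M)]

end

theorem t_UNR : Pool.Agent.D0H15.TI.S_UNR := by
  intro M _ _ _ L F hcore p hp hL hF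
  have hpZ : Prime (p : ℤ) := Nat.prime_iff_prime_int.1 hp
  have hM : ¬ (p : ℤ) ∣ NumberField.discr M := by
    rw [NumberField.not_dvd_discr_iff_forall_mem M (𝓞 M) hpZ]
    intro P hP hpP
    have hpP' : ((p : ℕ) : 𝓞 M) ∈ P := by simpa using hpP
    have key : ∀ g : M ≃ₐ[ℚ] M, ∀ i ∈ P.inertia (M ≃ₐ[ℚ] M), g * i * g⁻¹ ∈ L.fixingSubgroup := by
      intro g
      haveI hgP : (g • P).IsPrime := by
        have e : g • P = P.map (MulSemiringAction.toRingEquiv (M ≃ₐ[ℚ] M) (𝓞 M) g) := rfl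
        rw [e]
        exact Ideal.map_isPrime_of_equiv _
      have hmem : ((p : ℕ) : 𝓞 M) ∈ g • P := by
        rw [Ideal.mem_pointwise_smul_iff_inv_smul_mem, smul_nat]
        exact hpP'
      have h1 : ((g • P).under (𝓞 L)).ramificationIdx ℤ = 1 := by
        have h2 := (NumberField.not_dvd_discr_iff_forall_mem L (𝓞 L) hpZ).1 hL ((g • P).under (𝓞 L)) inferInstance (by
          rw [Ideal.under_def, Ideal.mem_comap]
          simpa using hmem)
        exact Ideal.ramificationIdx_eq_one_iff.2 h2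
      have h3 : (g • P).ramificationIdx ℤ = (g • P).ramificationIdx (𝓞 L) := by
        rw [Ideal.ramificationIdx_tower ((g • P).under (𝓞 L)) (g • P) (R := ℤ), h1, one_mul]
      have h4 : (g • P).ramificationIdx ℤ = P.ramificationIdx ℤ := Ideal.ramificationIdx_smul _ _ _
      have h5 : Nat.card {i : M ≃ₐ[ℚ] M // i ∈ P.inertia (M ≃ₐ[ℚ] M) ∧ g * i * g⁻¹ ∈ L.fixingSubgroup} =
          Nat.card (P.inertia (M ≃ₐ[ℚ] M)) := by
        rw [← inertia_card L P g, card_e, card_e', ← h3, h4]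
      have h6 : {i : M ≃ₐ[ℚ] M | i ∈ P.inertia (M ≃ₐ[ℚ] M) ∧ g * i * g⁻¹ ∈ L.fixingSubgroup} =
          (P.inertia (M ≃ₐ[ℚ] M) : Set (M ≃ₐ[ℚ] M)) := by
        refine Set.eq_of_subset_of_ncard_le (fun i hi => hi.1) ?_ (Set.toFinite _)
        exact le_of_eq h5.symm
      intro i hi
      have h7 : i ∈ {i : M ≃ₐ[ℚ] M | i ∈ P.inertia (M ≃ₐ[ℚ] M) ∧ g * i * g⁻¹ ∈ L.fixingSubgroup} := by
        rw [h6]
        exact hi
      exact h7.2
    have hbot : P.inertia (M ≃ₐ[ℚ] M) = ⊥ := by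
      rw [eq_bot_iff, ← hcore]
      intro i hi g
      exact key g i hi
    have he : P.ramificationIdx ℤ = 1 := by
      rw [← card_e', hbot]
      exact Subgroup.card_bot
    exact Ideal.ramificationIdx_eq_one_iff.1 he
  exact hM (hF.trans (NumberField.discr_dvd_discr F M))

end Pool.Agent.D0H21.TI
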